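import Pool.Agent.Helper5.Third.Count

/-!
# The weak abc inequality for rational numbers: exceptions have exponent at most one third

For every `θ > 1/3` there is `κ₀` such that, for all `κ ≥ κ₀`, real `c` and `ε > 0`, at most
`C B ^ ε min(Y, B ^ (1 / κ)) ^ θ` rational numbers `x ≠ 0, 1` of height `H(x) ≤ B` with
`cond (x) + cond (1/x) + cond (x - 1) ≤ log Y` satisfy
`h (x) ≥ κ (cond (x) + cond (1/x) + cond (x - 1)) - c`.

The proof is in `Pool.Agent.Helper5.Third`; it uses the `p`-adic counting theorem of the library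
(`Pool.Graph.R_seed8.Y913`), the energy bound for cells of the library
(`Pool.Graph.R_seed8.H705R2`, `H785R2`) and a lemma on signatures of helper86.
-/

set_option autoImplicit false

namespace Pool.Agent.Results.MP_f5a5f7_nt.RationalExceptionsThird

open Pool.Agent.H785R2.ABC

/-- the absolute logarithmic height of a rational number -/
noncomputable def height (x : ℚ) : ℝ := Real.log ((max x.num.natAbs x.den : ℕ) : ℝ)

/-- the primes `p` with `|x|_p < 1` -/
def zeros (x : ℚ) : Finset ℕ := x.num.natAbs.primeFactors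

/-- the conductor of a rational number: the sum of `log p` over the primes `p` with `|x|_p < 1` -/
noncomputable def cond (x : ℚ) : ℝ := ∑ p ∈ zeros x, Real.log p

/-- the sum of the three conductors -/
noncomputable def conds (x : ℚ) : ℝ := cond x + cond x⁻¹ + cond (x - 1)

/-- the `x ≠ 0, 1` with `H(x) ≤ B`, `conds (x) ≤ log Y` and `h (x) ≥ κ conds (x) - c` -/
def exceptional (κ c B Y : ℝ) : Set ℚ :=
  {x | x ≠ 0 ∧ x ≠ 1 ∧ Real.exp (height x) ≤ B ∧ conds x ≤ Real.log Y ∧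
    κ * conds x ≤ height x + c}

/-! ### From `x` to pairs -/

lemma num_inv {x : ℚ} (hx : x ≠ 0) : x⁻¹.num.natAbs = x.den := by
  have h1 : x.num ≠ 0 := Rat.num_ne_zero.mpr hx
  rw [Rat.num_inv, Int.natAbs_mul, Int.natAbs_sign_of_ne_zero h1, one_mul, Int.natAbs_natCast]

lemma num_sub (x : ℚ) : (x - 1).num = x.num - x.den := by
  have h1 : (x - 1).den = x.den := by
    have h0 := Rat.sub_natCast_den x 1
    rwa [Nat.cast_one] at h0
  have h2 := Rat.mul_den_eq_num (x - 1)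
  rw [h1] at h2
  have h3 := Rat.mul_den_eq_num x
  have h4 : (((x - 1).num : ℤ) : ℚ) = ((x.num - x.den : ℤ) : ℚ) := by
    push_cast
    rw [← h2, ← h3]
    ring
  exact_mod_cast h4

/-- the logarithm of the radical is the sum of the three conductors -/
lemma log_rad {x : ℚ} (hx : x ≠ 0) (hm : (x - 1).num.natAbs ≠ 0)
    (hc1 : Nat.Coprime x.num.natAbs x.den)
    (hc2 : Nat.Coprime x.num.natAbs (x - 1).num.natAbs)
    (hc3 : Nat.Coprime x.den (x - 1).num.natAbs) :
    Real.log (rad (x.num.natAbs * x.den * (x - 1).num.natAbs) : ℝ) = conds x := by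
  have hn : x.num.natAbs ≠ 0 := Int.natAbs_ne_zero.mpr (Rat.num_ne_zero.mpr hx)
  have hd : x.den ≠ 0 := x.den_ne_zero
  unfold rad conds cond zeros
  rw [num_inv hx, Nat.cast_prod, Real.log_prod (fun p hp => by
    have := (Nat.prime_of_mem_primeFactors hp).pos
    positivity)]
  rw [Nat.primeFactors_mul (mul_ne_zero hn hd) hm, Nat.primeFactors_mul hn hd]
  have hd2 : Disjoint (x.num.natAbs.primeFactors ∪ x.den.primeFactors)
      (x - 1).num.natAbs.primeFactors := by
    rw [Finset.disjoint_union_left]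
    exact ⟨hc2.disjoint_primeFactors, hc3.disjoint_primeFactors⟩
  rw [Finset.sum_union hd2, Finset.sum_union hc1.disjoint_primeFactors]

/-- the conditions on pairs -/
def IsPair (κ c B Y : ℝ) (t : ℕ × ℕ) : Prop :=
  0 < t.1 ∧ 0 < t.2 ∧ Nat.Coprime t.1 t.2 ∧ ((t.1 + t.2 : ℕ) : ℝ) ≤ 2 * B ∧
    (rad (t.1 * t.2 * (t.1 + t.2)) : ℝ) ≤ Y ∧
    Real.exp (-c) * (rad (t.1 * t.2 * (t.1 + t.2)) : ℝ) ^ κ ≤ ((t.1 + t.2 : ℕ) : ℝ)

lemma isPair_of {κ c B Y : ℝ} (hY : 1 ≤ Y) {x : ℚ} (hx : x ∈ exceptional κ c B Y) {a b : ℕ}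
    (ha : 0 < a) (hb : 0 < b) (hab : Nat.Coprime a b) (hm : (x - 1).num.natAbs ≠ 0)
    (hr : a * b * (a + b) = x.num.natAbs * x.den * (x - 1).num.natAbs)
    (h4 : max x.num.natAbs x.den ≤ a + b) (h5 : a + b ≤ 2 * max x.num.natAbs x.den)
    (hc1 : Nat.Coprime x.num.natAbs x.den) (hc2 : Nat.Coprime x.num.natAbs (x - 1).num.natAbs)
    (hc3 : Nat.Coprime x.den (x - 1).num.natAbs) : IsPair κ c B Y (a, b) := by
  obtain ⟨hx0, hx1, hB, hcY, hviol⟩ := hx
  have hH : (0 : ℝ) < ((max x.num.natAbs x.den : ℕ) : ℝ) := by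
    exact_mod_cast lt_max_of_lt_right x.den_pos
  have hexp : Real.exp (height x) = ((max x.num.natAbs x.den : ℕ) : ℝ) := by
    unfold height
    exact Real.exp_log hH
  rw [hexp] at hB
  rw [← log_rad hx0 hm hc1 hc2 hc3, ← hr] at hcY hviol
  have hrpos : (0 : ℝ) < (rad (a * b * (a + b)) : ℝ) := by
    exact_mod_cast Pool.Agent.Helper5.Third.rad_pos _
  have hab0 : (0 : ℝ) < ((a + b : ℕ) : ℝ) := by exact_mod_cast (by omega : 0 < a + b)
  refine ⟨ha, hb, hab, ?_, ?_, ?_⟩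
  · have h6 : ((a + b : ℕ) : ℝ) ≤ 2 * ((max x.num.natAbs x.den : ℕ) : ℝ) := by exact_mod_cast h5
    exact h6.trans (by linarith)
  · exact (Real.log_le_log_iff hrpos (by linarith)).1 hcY
  · have h7 : height x ≤ Real.log ((a + b : ℕ) : ℝ) := by
      unfold height
      apply Real.log_le_log hH
      exact_mod_cast h4
    have h8 : -c + κ * Real.log (rad (a * b * (a + b)) : ℝ) ≤ Real.log ((a + b : ℕ) : ℝ) := by
      linarith
    have h9 : Real.exp (-c + κ * Real.log (rad (a * b * (a + b)) : ℝ)) ≤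
        Real.exp (Real.log ((a + b : ℕ) : ℝ)) := Real.exp_le_exp.2 h8
    rw [Real.exp_log hab0, Real.exp_add, mul_comm κ, ← Real.rpow_def_of_pos hrpos] at h9
    exact h9

/-- the exceptional set is covered by three images of the set of pairs -/
lemma cover {κ c B Y : ℝ} (hY : 1 ≤ Y) (T : Set (ℕ × ℕ)) (hT : ∀ t, IsPair κ c B Y t → t ∈ T) :
    exceptional κ c B Y ⊆ (fun q : ℕ × ℕ => -((q.1 : ℚ) / q.2)) '' T ∪
      (fun q : ℕ × ℕ => (q.1 : ℚ) / ((q.1 + q.2 : ℕ) : ℚ)) '' T ∪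
      (fun q : ℕ × ℕ => ((q.1 + q.2 : ℕ) : ℚ) / q.1) '' T := by
  intro x hx
  have hx' := hx
  obtain ⟨hx0, hx1, -, -, -⟩ := hx
  have hnum := num_sub x
  have hd : 0 < x.den := x.den_pos
  have hdi : (0 : ℤ) < x.den := by exact_mod_cast hd
  have hxe : x = (x.num : ℚ) / x.den := (Rat.num_div_den x).symm
  have hn0 : x.num ≠ 0 := Rat.num_ne_zero.mpr hx0
  have hne : x.num ≠ x.den := by
    intro he
    apply hx1
    rw [hxe, he]
    field_simp
    norm_cast
  have hc1 : Nat.Coprime x.num.natAbs x.den := x.reduced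
  have hc1i : IsCoprime x.num (x.den : ℤ) := by
    rw [Int.isCoprime_iff_gcd_eq_one]
    exact hc1
  have hc2i : IsCoprime x.num (x - 1).num := by
    rw [hnum]
    have h5 : IsCoprime x.num (-(x.den : ℤ) + x.num * 1) := hc1i.neg_right.add_mul_left_right 1
    have h6 : -(x.den : ℤ) + x.num * 1 = x.num - x.den := by ring
    rwa [h6] at h5
  have hc3i : IsCoprime (x.den : ℤ) (x - 1).num := by
    rw [hnum]
    have h5 : IsCoprime (x.den : ℤ) (x.num + x.den * (-1)) := hc1i.symm.add_mul_left_right (-1)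
    have h6 : x.num + (x.den : ℤ) * (-1) = x.num - x.den := by ring
    rwa [h6] at h5
  have hc2 : Nat.Coprime x.num.natAbs (x - 1).num.natAbs := by
    rw [Int.isCoprime_iff_gcd_eq_one] at hc2i
    exact hc2i
  have hc3 : Nat.Coprime x.den (x - 1).num.natAbs := by
    rw [Int.isCoprime_iff_gcd_eq_one] at hc3i
    exact hc3i
  have hm : 0 < (x - 1).num.natAbs := by
    rw [Int.natAbs_pos, hnum]
    omega
  rcases lt_or_gt_of_ne hn0 with hneg | hpos
  · -- negative numbers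
    left; left
    have h8 : x.num.natAbs + x.den = (x - 1).num.natAbs := by
      rw [hnum]
      omega
    refine ⟨(x.num.natAbs, x.den), hT _ (isPair_of hY hx' (by omega) hd hc1 hm.ne'
      (by rw [h8]) (by omega) (by omega) hc1 hc2 hc3), ?_⟩
    show -((x.num.natAbs : ℚ) / x.den) = x
    have h7 : (x.num.natAbs : ℚ) = -(x.num : ℚ) := by
      have : ((x.num.natAbs : ℤ)) = -x.num := by omega
      rw [← Int.cast_natCast (R := ℚ), this, Int.cast_neg]
    rw [h7]
    conv_rhs => rw [hxe]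
    ring
  · rcases lt_or_gt_of_ne hne with hlt | hgt
    · left; right
      have h8 : x.num.natAbs + (x - 1).num.natAbs = x.den := by
        rw [hnum]
        omega
      refine ⟨(x.num.natAbs, (x - 1).num.natAbs), hT _ (isPair_of hY hx' (by omega) hm hc2 hm.ne'
        (by rw [h8]; ring) (by omega) (by omega) hc1 hc2 hc3), ?_⟩
      show (x.num.natAbs : ℚ) / ((x.num.natAbs + (x - 1).num.natAbs : ℕ) : ℚ) = x
      rw [h8]
      have h7 : (x.num.natAbs : ℚ) = (x.num : ℚ) := by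
        have : ((x.num.natAbs : ℤ)) = x.num := by omega
        rw [← Int.cast_natCast (R := ℚ), this]
      rw [h7]
      exact hxe.symm
    · right
      have h8 : x.den + (x - 1).num.natAbs = x.num.natAbs := by
        rw [hnum]
        omega
      refine ⟨(x.den, (x - 1).num.natAbs), hT _ (isPair_of hY hx' hd hm hc3 hm.ne'
        (by rw [h8]; ring) (by omega) (by omega) hc1 hc2 hc3), ?_⟩
      show ((x.den + (x - 1).num.natAbs : ℕ) : ℚ) / x.den = x
      rw [h8]
      have h7 : (x.num.natAbs : ℚ) = (x.num : ℚ) := by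
        have : ((x.num.natAbs : ℤ)) = x.num := by omega
        rw [← Int.cast_natCast (R := ℚ), this]
      rw [h7]
      exact hxe.symm

/-- Let `θ > 1/3`. There is `κ₀ > 1` such that for all `κ ≥ κ₀`, real `c` and `ε > 0` there are
`O(B ^ ε min(Y, B ^ (1 / κ)) ^ θ)` rational numbers `x ≠ 0, 1` with `H(x) ≤ B`,
`cond (x) + cond (1/x) + cond (x - 1) ≤ log Y` and
`h (x) ≥ κ (cond (x) + cond (1/x) + cond (x - 1)) - c`. -/
theorem result (θ : ℝ) (hθ : 1 / 3 < θ) : ∃ κ₀ : ℝ, 1 < κ₀ ∧ ∀ κ : ℝ, κ₀ ≤ κ → ∀ c ε : ℝ, 0 < ε →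
    ∃ C : ℝ, ∀ B Y : ℝ, 1 ≤ B → 1 ≤ Y → (exceptional κ c B Y).Finite ∧
      ((exceptional κ c B Y).ncard : ℝ) ≤ C * B ^ ε * (min Y (B ^ (1 / κ))) ^ θ := by
  classical
  obtain ⟨κ₁, hκ₁, hmain⟩ := Pool.Agent.Helper5.Third.count_third θ hθ
  obtain ⟨κ₀, hκ₀⟩ : ∃ κ₀ : ℝ, κ₀ = κ₁ + 1 := ⟨_, rfl⟩
  have hκ₀1 : 1 < κ₀ := by rw [hκ₀]; linarith
  -- the case of `κ₀`
  have key : ∀ c ε : ℝ, 0 < ε → ∃ C : ℝ, 0 < C ∧ ∀ B Y : ℝ, 1 ≤ B → 1 ≤ Y →
      (exceptional κ₀ c B Y).Finite ∧ ((exceptional κ₀ c B Y).ncard : ℝ) ≤ C * B ^ ε * Y ^ θ := by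
    intro c ε hε
    obtain ⟨C, hC, h⟩ := hmain (Real.exp (-c)) ε (Real.exp_pos _) hε
    refine ⟨3 * (C * 2 ^ ε), by positivity, ?_⟩
    intro B Y hB hY
    obtain ⟨X, hX⟩ : ∃ X : ℕ, X = ⌊2 * B⌋₊ := ⟨_, rfl⟩
    have hX1 : 1 ≤ X := by
      rw [hX]
      exact Nat.le_floor (by push_cast; linarith)
    have hXB : (X : ℝ) ≤ 2 * B := by rw [hX]; exact Nat.floor_le (by linarith)
    obtain ⟨T, hT⟩ : ∃ T : Finset (ℕ × ℕ), T = (Finset.range (X + 1) ×ˢ Finset.range (X + 1)).filter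
        (IsPair κ₀ c B Y) := ⟨_, rfl⟩
    have hcov := cover (κ := κ₀) (c := c) (B := B) (Y := Y) hY (T : Set (ℕ × ℕ)) (fun t ht => by
      rw [hT, Finset.mem_coe, Finset.mem_filter, Finset.mem_product, Finset.mem_range,
        Finset.mem_range]
      have h1 := ht.2.2.2.1
      have h2 : t.1 + t.2 ≤ X := by
        rw [hX]
        exact Nat.le_floor h1
      exact ⟨⟨by omega, by omega⟩, ht⟩)
    have hfin1 := (T.finite_toSet.image fun q : ℕ × ℕ => -((q.1 : ℚ) / q.2))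
    have hfin2 := (T.finite_toSet.image fun q : ℕ × ℕ => (q.1 : ℚ) / ((q.1 + q.2 : ℕ) : ℚ))
    have hfin3 := (T.finite_toSet.image fun q : ℕ × ℕ => ((q.1 + q.2 : ℕ) : ℚ) / q.1)
    have hfin := (hfin1.union hfin2).union hfin3
    have hTc : (T.card : ℝ) ≤ C * (X : ℝ) ^ ε * Y ^ θ := by
      refine h X hX1 Y hY T (fun t ht => ?_)
      rw [hT, Finset.mem_filter] at ht
      obtain ⟨-, q1, q2, q3, q4, q5, q6⟩ := ht
      refine ⟨q1, q2, q3, by rw [hX]; exact Nat.le_floor q4, q5, le_trans ?_ q6⟩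
      have h1 : (1 : ℝ) ≤ (rad (t.1 * t.2 * (t.1 + t.2)) : ℝ) := by
        exact_mod_cast Pool.Agent.Helper5.Third.rad_pos _
      have h2 : (rad (t.1 * t.2 * (t.1 + t.2)) : ℝ) ^ κ₁ ≤
          (rad (t.1 * t.2 * (t.1 + t.2)) : ℝ) ^ κ₀ :=
        Real.rpow_le_rpow_of_exponent_le h1 (by rw [hκ₀]; linarith)
      exact mul_le_mul_of_nonneg_left h2 (Real.exp_pos _).le
    refine ⟨hfin.subset hcov, ?_⟩
    have e1 : (exceptional κ₀ c B Y).ncard ≤ T.card + T.card + T.card := by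
      refine (Set.ncard_le_ncard hcov hfin).trans ?_
      refine (Set.ncard_union_le _ _).trans (Nat.add_le_add ((Set.ncard_union_le _ _).trans
        (Nat.add_le_add ?_ ?_)) ?_)
      all_goals
        refine (Set.ncard_image_le T.finite_toSet).trans (le_of_eq ?_)
        exact Set.ncard_coe_finset T
    have e2 : ((exceptional κ₀ c B Y).ncard : ℝ) ≤ 3 * T.card := by
      have : ((exceptional κ₀ c B Y).ncard : ℝ) ≤ T.card + T.card + T.card := by exact_mod_cast e1
      linarith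
    have hYθ : 0 < Y ^ θ := by positivity
    calc ((exceptional κ₀ c B Y).ncard : ℝ) ≤ 3 * T.card := e2
      _ ≤ 3 * (C * (X : ℝ) ^ ε * Y ^ θ) := by linarith
      _ ≤ 3 * (C * (2 * B) ^ ε * Y ^ θ) := by gcongr
      _ = 3 * (C * 2 ^ ε) * B ^ ε * Y ^ θ := by
          rw [Real.mul_rpow (by norm_num) (by linarith)]
          ring
  refine ⟨κ₀, hκ₀1, ?_⟩
  intro κ hκ c ε hε
  have hκpos : 0 < κ := by linarith
  have hc0 : 0 ≤ max c 0 := le_max_right _ _
  obtain ⟨C, hC, h⟩ := key (max c 0) ε hε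
  obtain ⟨e, he⟩ : ∃ e : ℝ, e = Real.exp (max c 0 / κ) := ⟨_, rfl⟩
  have he1 : 1 ≤ e := by
    rw [he, ← Real.exp_zero]
    exact Real.exp_le_exp.2 (by positivity)
  refine ⟨C * e ^ θ, ?_⟩
  intro B Y hB hY
  have hB0 : 0 < B := by linarith
  have hY0 : 0 < Y := by linarith
  obtain ⟨m, hm⟩ : ∃ m : ℝ, m = min Y (B ^ (1 / κ)) := ⟨_, rfl⟩
  have hm1 : 1 ≤ m := by
    rw [hm]
    exact le_min hY (Real.one_le_rpow hB (by positivity))
  have hem : 1 ≤ e * m := by nlinarith
  obtain ⟨h1, h2⟩ := h B (e * m) hB hem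
  have hsub : exceptional κ c B Y ⊆ exceptional κ₀ (max c 0) B (e * m) := by
    rintro x ⟨hx0, hx1, hxB, hxY, hx⟩
    have hle : height x ≤ Real.log B := (Real.le_log_iff_exp_le hB0).2 hxB
    have hcn : 0 ≤ conds x := by
      have hcond : ∀ y : ℚ, 0 ≤ cond y := fun y =>
        Finset.sum_nonneg fun p hp => Real.log_nonneg (by
          exact_mod_cast (Nat.prime_of_mem_primeFactors hp).one_le)
      unfold conds
      have := hcond x
      have := hcond x⁻¹
      have := hcond (x - 1)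
      linarith
    have hcm : c ≤ max c 0 := le_max_left _ _
    refine ⟨hx0, hx1, hxB, ?_, ?_⟩
    · have e1 : conds x ≤ max c 0 / κ + Real.log Y := by
        have : 0 ≤ max c 0 / κ := by positivity
        linarith
      have e2 : conds x ≤ max c 0 / κ + Real.log (B ^ (1 / κ)) := by
        rw [Real.log_rpow hB0, one_div_mul_eq_div, ← add_div, le_div_iff₀ hκpos]
        linarith
      have e3 : Real.log (e * m) = max c 0 / κ + Real.log m := by
        rw [Real.log_mul (by positivity) (by positivity), he, Real.log_exp]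
      rw [e3, hm]
      rcases min_cases Y (B ^ (1 / κ)) with ⟨h3, -⟩ | ⟨h3, -⟩
      · rw [h3]; exact e1
      · rw [h3]; exact e2
    · have : κ₀ * conds x ≤ κ * conds x := mul_le_mul_of_nonneg_right hκ hcn
      linarith
  refine ⟨h1.subset hsub, ?_⟩
  have h3 : ((exceptional κ c B Y).ncard : ℝ) ≤
      ((exceptional κ₀ (max c 0) B (e * m)).ncard : ℝ) := by
    exact_mod_cast Set.ncard_le_ncard hsub h1
  refine h3.trans (h2.trans (le_of_eq ?_))
  rw [← hm, Real.mul_rpow (by linarith) (by linarith)]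
  ring

end Pool.Agent.Results.MP_f5a5f7_nt.RationalExceptionsThird
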